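import Pool.Agent.KK.StmtsE

/-!
# Katona-Kierstead, block E, row E_SUP: the supply lemma `StmtE15`

Hypotheses used: `StmtE01 StmtE02 StmtE07 StmtE10 StmtE12 StmtE13 StmtE14`.
-/

set_option autoImplicit false
set_option linter.unusedSectionVars false

namespace Pool.Agent.KK.E.H64

open Finset

section General

variable {V : Type} [Fintype V] [DecidableEq V]

/-- Additivity of the density. -/
lemma dens_split {ι : Type} [Fintype ι] (c : ι → Finset V) (A P : (ι → V) → Prop) :
    dens c (fun f => A f ∧ P f) + dens c (fun f => A f ∧ ¬ P f) = dens c A := by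
  unfold dens
  rw [← add_div, ← Nat.cast_add, ← Set.ncard_union_eq]
  · have h : ({f : ι → V | (∀ i, f i ∈ c i) ∧ A f ∧ P f} ∪
        {f : ι → V | (∀ i, f i ∈ c i) ∧ A f ∧ ¬ P f}) = {f : ι → V | (∀ i, f i ∈ c i) ∧ A f} := by
      ext f
      simp only [Set.mem_union, Set.mem_ofPred_eq]
      tauto
    rw [h]
  · rw [Set.disjoint_left]
    intro f hf hf'
    exact hf'.2.2 hf.2.2

lemma eta_mono {k B : ℕ} {η θ : ℕ → ℝ} {h δ : ℝ} (hc : Cst k B η θ h δ) (hk : 1 ≤ k) {i j : ℕ}
    (hij : i < j) (hj : j ≤ k) :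
    8 * (k : ℝ) * 4 ^ k * ((B : ℝ) + 1) * η i ≤ η j := by
  induction j with
  | zero => omega
  | succ j ih =>
    have h1 := hc.step j (by omega)
    rcases Nat.lt_succ_iff_lt_or_eq.mp hij with hlt | heq
    · have h2 := ih hlt (by omega)
      have hpos : 0 < η j := hc.pos j (by omega)
      have hk' : (1 : ℝ) ≤ k := by exact_mod_cast hk
      have h4 : (1 : ℝ) ≤ 4 ^ k := one_le_pow₀ (by norm_num)
      have hB : (0 : ℝ) ≤ B := Nat.cast_nonneg B
      have h5 : (1 : ℝ) ≤ 8 * (k : ℝ) * 4 ^ k * ((B : ℝ) + 1) := by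
        have e1 : (1 : ℝ) ≤ 8 * (k : ℝ) := by linarith
        have e2 : (1 : ℝ) ≤ 8 * (k : ℝ) * 4 ^ k := by nlinarith
        nlinarith
      nlinarith
    · rw [heq]; exact h1

lemma eta_le {k B : ℕ} {η θ : ℕ → ℝ} {h δ : ℝ} (hc : Cst k B η θ h δ) (hk : 1 ≤ k) {i j : ℕ}
    (hij : i ≤ j) (hj : j ≤ k) : η i ≤ η j := by
  rcases eq_or_lt_of_le hij with heq | hlt
  · rw [heq]
  · have h2 := eta_mono hc hk hlt hj
    have hpos : 0 < η i := hc.pos i (by omega)
    have hk' : (1 : ℝ) ≤ k := by exact_mod_cast hk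
    have h4 : (1 : ℝ) ≤ 4 ^ k := one_le_pow₀ (by norm_num)
    have hB : (0 : ℝ) ≤ B := Nat.cast_nonneg B
    have h5 : (1 : ℝ) ≤ 8 * (k : ℝ) * 4 ^ k * ((B : ℝ) + 1) := by
      have e1 : (1 : ℝ) ≤ 8 * (k : ℝ) := by linarith
      have e2 : (1 : ℝ) ≤ 8 * (k : ℝ) * 4 ^ k := by nlinarith
      nlinarith
    nlinarith

/-- Numerical consequences of the constants. -/
lemma num1 {k B : ℕ} {η θ : ℕ → ℝ} {h δ : ℝ} (hc : Cst k B η θ h δ) (hk : 2 ≤ k) :
    h < 1 / 4 ∧ h ≤ 1 ∧ (2 : ℝ) ^ k * (1 / (8 * (k : ℝ) * 4 ^ k * ((B : ℝ) + 1))) ≤ 1 / 16 ∧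
      (B : ℝ) * η 1 ≤ 1 / 16 := by
  have hk' : (2 : ℝ) ≤ k := by exact_mod_cast hk
  have h2 : (1 : ℝ) ≤ 2 ^ k := one_le_pow₀ (by norm_num)
  have h4 : (1 : ℝ) ≤ 4 ^ k := one_le_pow₀ (by norm_num)
  have h24 : (2 : ℝ) ^ k ≤ 4 ^ k := pow_le_pow_left₀ (by norm_num) (by norm_num) k
  have hB : (0 : ℝ) ≤ B := Nat.cast_nonneg B
  have hs := hc.hsmall
  have hb : (16 : ℝ) ≤ 8 * (k : ℝ) * 2 ^ k := by nlinarith
  have hs' : (1 : ℝ) / (8 * (k : ℝ) * 2 ^ k) ≤ 1 / 16 :=
    one_div_le_one_div_of_le (by norm_num) hb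
  have hP : 0 < 8 * (k : ℝ) * 4 ^ k * ((B : ℝ) + 1) := by positivity
  refine ⟨by linarith, by linarith, ?_, ?_⟩
  · rw [mul_one_div, div_le_div_iff₀ hP (by norm_num)]
    have e1 : (16 : ℝ) * 2 ^ k ≤ 8 * (k : ℝ) * 4 ^ k := by nlinarith
    have e2 : 8 * (k : ℝ) * 4 ^ k * 1 ≤ 8 * (k : ℝ) * 4 ^ k * ((B : ℝ) + 1) :=
      mul_le_mul_of_nonneg_left (by linarith) (by positivity)
    linarith
  · have e1 := hc.step 1 (by omega)
    have e2 := hc.half 2 (by omega)
    have hpos : 0 < η 1 := hc.pos 1 (by omega)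
    have e3 : (16 : ℝ) ≤ 8 * (k : ℝ) * 4 ^ k := by nlinarith
    have e4 : (16 : ℝ) * ((B : ℝ) + 1) * η 1 ≤ 8 * (k : ℝ) * 4 ^ k * ((B : ℝ) + 1) * η 1 := by
      have : (16 : ℝ) * ((B : ℝ) + 1) ≤ 8 * (k : ℝ) * 4 ^ k * ((B : ℝ) + 1) :=
        mul_le_mul_of_nonneg_right e3 (by linarith)
      exact mul_le_mul_of_nonneg_right this hpos.le
    have e5 : (16 : ℝ) * ((B : ℝ) + 1) * η 1 ≤ 1 / 2 := by
      have : η (1 + 1) = η 2 := rfl
      linarith
    nlinarith

lemma card_inter_of_subset {M X : Finset V} (h : M ⊆ X) : (M ∩ X).card = M.card := by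
  rw [inter_eq_left.mpr h]

lemma card_sdiff_of_subset' {M X : Finset V} (h : M ⊆ X) : (M \ X).card = 0 := by
  rw [card_eq_zero, sdiff_eq_empty_iff_subset]; exact h

/-- A non-normal subset of `X` that is not mixed is flipped. -/
lemma flip_lemma (h10 : StmtE10) {H : Finset (Finset V)} {X M : Finset V} {p q B : ℕ} {δ h : ℝ}
    {η θ : ℕ → ℝ} (ha : Amb H X p q B δ) (hc : Cst (p + q + 2) B η θ h δ)
    (hN : Non H X p q η M) (hne : M.Nonempty) (hX : M ⊆ X)
    (hmix : Mix H X M (p + 1 - M.card) q ≤ θ M.card) :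
    M.card ≤ p + 1 ∧ D H X M (p + 2 - M.card) q ≤ h := by
  obtain ⟨h1, h2, h3⟩ := hN
  rw [card_inter_of_subset hX] at h1 h3
  rw [card_sdiff_of_subset' hX] at h3
  have hpos : 1 ≤ M.card := hne.card_pos
  have hnum := num1 hc (by omega)
  have e10 := h10 V H X M p q B (p + 1 - M.card) q δ (η M.card) (θ M.card) h ha (by omega)
    (hc.pos _ (by omega)) (by have := hc.half M.card (by omega); linarith) hc.hpos hnum.2.1
    (hc.tsmall _ hpos (by omega)) ?_ h3.le hmix
  · refine ⟨h1, ?_⟩
    have : p + 1 - M.card + 1 = p + 2 - M.card := by omega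
    rw [this] at e10
    exact e10
  · have e0 : η 0 ≤ η M.card := eta_le hc (by omega) (Nat.zero_le _) (by omega)
    have ed := hc.dsmall
    have hk' : (2 : ℝ) ≤ ((p + q + 2 : ℕ) : ℝ) := by
      have : 2 ≤ p + q + 2 := by omega
      exact_mod_cast this
    have h4 : (1 : ℝ) ≤ 4 ^ (p + q + 2) := one_le_pow₀ (by norm_num)
    have hB : (0 : ℝ) ≤ B := Nat.cast_nonneg B
    have hdpos := hc.dpos
    have hh := hc.hpos
    rw [le_div_iff₀ (by positivity)]
    have e1 : δ * (16 * ((p + q + 2 : ℕ) : ℝ)) ≤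
        100 * ((p + q + 2 : ℕ) : ℝ) * 4 ^ (p + q + 2) * ((B : ℝ) + 1) * δ := by
      have f1 : 100 * ((p + q + 2 : ℕ) : ℝ) * 1 ≤
          100 * ((p + q + 2 : ℕ) : ℝ) * 4 ^ (p + q + 2) :=
        mul_le_mul_of_nonneg_left h4 (by positivity)
      have f2 : 100 * ((p + q + 2 : ℕ) : ℝ) * 4 ^ (p + q + 2) * 1 ≤
          100 * ((p + q + 2 : ℕ) : ℝ) * 4 ^ (p + q + 2) * ((B : ℝ) + 1) :=
        mul_le_mul_of_nonneg_left (by linarith) (by positivity)
      have f3 : 16 * ((p + q + 2 : ℕ) : ℝ) ≤
          100 * ((p + q + 2 : ℕ) : ℝ) * 4 ^ (p + q + 2) * ((B : ℝ) + 1) := by linarith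
      have f4 := mul_le_mul_of_nonneg_right f3 hdpos.le
      linarith
    have e2 : η 0 * h ≤ η M.card * h := mul_le_mul_of_nonneg_right e0 hh.le
    linarith

/-- The symmetric statement. -/
lemma flip_lemma' (h07 : StmtE07) (h10 : StmtE10) {H : Finset (Finset V)} {X M : Finset V}
    {p q B : ℕ} {δ h : ℝ} {η θ : ℕ → ℝ} (hXn : X.Nonempty) (hXn' : (Xᶜ).Nonempty)
    (ha : Amb H X p q B δ)
    (hc : Cst (p + q + 2) B η θ h δ)
    (hN : Non H X p q η M) (hne : M.Nonempty) (hX : M ⊆ Xᶜ)
    (hmix : Mix H X M p (q + 1 - M.card) ≤ θ M.card) :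
    M.card ≤ q + 1 ∧ D H X M p (q + 2 - M.card) ≤ h := by
  obtain ⟨s1, s2, s3, s4, s5⟩ := h07 V H X hXn hXn'
  have hc' : Cst (q + p + 2) B η θ h δ := by
    have : q + p + 2 = p + q + 2 := by omega
    rw [this]; exact hc
  have := flip_lemma h10 (s5 p q B δ ha) hc' ((s3 p q η M).mpr hN) hne hX
    (by rw [s2]; exact hmix)
  rw [s1] at this
  exact this

/-- Re-indexing by `Sum.swap`. -/
lemma lets_swap (X : Finset V) (a b : ℕ) :
    (lets X a b) ∘ (Sum.swap : Fin b ⊕ Fin a → Fin a ⊕ Fin b) = lets Xᶜ b a := by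
  funext i
  rcases i with i | i
  · simp [lets]
  · simp [lets]

lemma lets_nonempty {X : Finset V} (hXn : X.Nonempty) (hXn' : (Xᶜ).Nonempty) (a b : ℕ) :
    ∀ i, (lets X a b i).Nonempty := by
  rintro (i | i)
  · simpa [lets] using hXn
  · simpa [lets] using hXn'

lemma image_swap {a b : ℕ} (f : Fin a ⊕ Fin b → V) :
    (univ : Finset (Fin b ⊕ Fin a)).image (f ∘ Sum.swap) = univ.image f := by
  ext v
  simp only [mem_image, mem_univ, true_and, Function.comp_apply]
  constructor
  · rintro ⟨i, hi⟩; exact ⟨_, hi⟩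
  · rintro ⟨i, hi⟩; exact ⟨i.swap, by rw [Sum.swap_swap]; exact hi⟩

lemma Rx_swap {p q : ℕ} (f : Fin (p + 1) ⊕ Fin (q + 1) → V) :
    Rx (p := q) (q := p) (f ∘ Sum.swap) = Ry f := by
  unfold Rx Ry
  ext v
  simp only [mem_image, mem_filter, mem_univ, true_and, Function.comp_apply]
  constructor
  · rintro ⟨i, hi, rfl⟩
    refine ⟨i.swap, ?_, rfl⟩
    intro h
    apply hi
    have := congrArg Sum.swap h
    rw [Sum.swap_swap] at this
    simpa using this
  · rintro ⟨i, hi, rfl⟩
    refine ⟨i.swap, ?_, by rw [Sum.swap_swap]⟩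
    intro h
    apply hi
    have := congrArg Sum.swap h
    rw [Sum.swap_swap] at this
    simpa using this

lemma Ry_swap {p q : ℕ} (f : Fin (p + 1) ⊕ Fin (q + 1) → V) :
    Ry (p := q) (q := p) (f ∘ Sum.swap) = Rx f := by
  unfold Rx Ry
  ext v
  simp only [mem_image, mem_filter, mem_univ, true_and, Function.comp_apply]
  constructor
  · rintro ⟨i, hi, rfl⟩
    refine ⟨i.swap, ?_, rfl⟩
    intro h
    apply hi
    have := congrArg Sum.swap h
    rw [Sum.swap_swap] at this
    simpa using this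
  · rintro ⟨i, hi, rfl⟩
    refine ⟨i.swap, ?_, by rw [Sum.swap_swap]⟩
    intro h
    apply hi
    have := congrArg Sum.swap h
    rw [Sum.swap_swap] at this
    simpa using this

lemma Gen_swap {H : Finset (Finset V)} {X W : Finset V} {p q : ℕ} {η : ℕ → ℝ}
    (s3 : ∀ p q η M, Non H Xᶜ q p η M ↔ Non H X p q η M)
    (f : Fin (p + 1) ⊕ Fin (q + 1) → V) :
    Gen H Xᶜ q p η W ∅ (f ∘ (Sum.swap : Fin (q + 1) ⊕ Fin (p + 1) → _)) ↔
      Gen H X p q η W ∅ f := by
  unfold Gen
  rw [image_swap]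
  constructor
  · rintro ⟨h1, h2, h3⟩
    refine ⟨?_, ?_, ?_⟩
    · intro i j hij
      have := h1 (a₁ := i.swap) (a₂ := j.swap) (by simpa [Function.comp_apply] using hij)
      have := congrArg Sum.swap this
      simpa using this
    · intro i
      have := h2 i.swap
      simpa [Function.comp_apply] using this
    · intro N hN
      rw [← s3 p q η N]
      exact h3 N hN
  · rintro ⟨h1, h2, h3⟩
    refine ⟨?_, ?_, ?_⟩
    · intro i j hij
      have := h1 (a₁ := i.swap) (a₂ := j.swap) (by simpa [Function.comp_apply] using hij)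
      have := congrArg Sum.swap this
      simpa using this
    · intro i
      exact h2 i.swap
    · intro N hN
      rw [s3 p q η N]
      exact h3 N hN

lemma insert_Ry {p q : ℕ} (f : Fin (p + 1) ⊕ Fin (q + 1) → V) (v : V) :
    insert v (Ry f) =
      {v} ∪ univ.image (f ∘ (Sum.map Fin.succ id : Fin p ⊕ Fin (q + 1) → _)) := by
  unfold Ry
  ext w
  simp only [mem_insert, mem_union, mem_singleton, mem_image, mem_filter, mem_univ, true_and,
    Function.comp_apply]
  apply or_congr Iff.rfl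
  constructor
  · rintro ⟨i, hi, rfl⟩
    rcases i with i | i
    · have hi' : i ≠ 0 := fun h => hi (by rw [h])
      obtain ⟨j, rfl⟩ := Fin.exists_succ_eq.mpr hi'
      exact ⟨Sum.inl j, rfl⟩
    · exact ⟨Sum.inr i, rfl⟩
  · rintro ⟨i, rfl⟩
    rcases i with i | i
    · exact ⟨Sum.inl i.succ, by simp, rfl⟩
    · exact ⟨Sum.inr i, by simp, rfl⟩

lemma insert_Rx {p q : ℕ} (f : Fin (p + 1) ⊕ Fin (q + 1) → V) (v : V) :
    insert v (Rx f) =
      {v} ∪ univ.image (f ∘ (Sum.map id Fin.succ : Fin (p + 1) ⊕ Fin q → _)) := by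
  unfold Rx
  ext w
  simp only [mem_insert, mem_union, mem_singleton, mem_image, mem_filter, mem_univ, true_and,
    Function.comp_apply]
  apply or_congr Iff.rfl
  constructor
  · rintro ⟨i, hi, rfl⟩
    rcases i with i | i
    · exact ⟨Sum.inl i, rfl⟩
    · have hi' : i ≠ 0 := fun h => hi (by rw [h])
      obtain ⟨j, rfl⟩ := Fin.exists_succ_eq.mpr hi'
      exact ⟨Sum.inr j, rfl⟩
  · rintro ⟨i, rfl⟩
    rcases i with i | i
    · exact ⟨Sum.inl i, by simp, rfl⟩
    · exact ⟨Sum.inr i.succ, by simp, rfl⟩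

/-- Marginal of the edge event for `insert v (Ry f)`. -/
lemma dens_Ry (h02 : StmtE02) {H : Finset (Finset V)} {X : Finset V} {p q : ℕ}
    (hXn : X.Nonempty) (hXn' : (Xᶜ).Nonempty) (v : V) :
    dens (lets X (p + 1) (q + 1)) (fun f => insert v (Ry f) ∈ H) = D H X {v} p (q + 1) := by
  have hφ : Function.Injective
      (Sum.map Fin.succ id : Fin p ⊕ Fin (q + 1) → Fin (p + 1) ⊕ Fin (q + 1)) :=
    Function.Injective.sumMap (Fin.succ_injective _) Function.injective_id
  have e := h02 V (Fin (p + 1) ⊕ Fin (q + 1)) (Fin p ⊕ Fin (q + 1)) (lets X (p + 1) (q + 1))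
    (Sum.map Fin.succ id) (lets_nonempty hXn hXn' _ _) hφ (fun g => {v} ∪ univ.image g ∈ H)
  have e2 : (lets X (p + 1) (q + 1)) ∘ (Sum.map Fin.succ id : Fin p ⊕ Fin (q + 1) → _) =
      lets X p (q + 1) := by
    funext i
    rcases i with i | i <;> rfl
  rw [e2] at e
  unfold D
  rw [← e]
  congr 1
  funext f
  rw [insert_Ry]

lemma dens_Rx (h02 : StmtE02) {H : Finset (Finset V)} {X : Finset V} {p q : ℕ}
    (hXn : X.Nonempty) (hXn' : (Xᶜ).Nonempty) (v : V) :
    dens (lets X (p + 1) (q + 1)) (fun f => insert v (Rx f) ∈ H) = D H X {v} (p + 1) q := by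
  have hφ : Function.Injective
      (Sum.map id Fin.succ : Fin (p + 1) ⊕ Fin q → Fin (p + 1) ⊕ Fin (q + 1)) :=
    Function.Injective.sumMap Function.injective_id (Fin.succ_injective _)
  have e := h02 V (Fin (p + 1) ⊕ Fin (q + 1)) (Fin (p + 1) ⊕ Fin q) (lets X (p + 1) (q + 1))
    (Sum.map id Fin.succ) (lets_nonempty hXn hXn' _ _) hφ (fun g => {v} ∪ univ.image g ∈ H)
  have e2 : (lets X (p + 1) (q + 1)) ∘ (Sum.map id Fin.succ : Fin (p + 1) ⊕ Fin q → _) =
      lets X (p + 1) q := by
    funext i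
    rcases i with i | i <;> rfl
  rw [e2] at e
  unfold D
  rw [← e]
  congr 1
  funext f
  rw [insert_Rx]

/-- The inequality of a single vertex outside `X`. -/
lemma vertex' (h02 : StmtE02) (h07 : StmtE07) (h13 : StmtE13) {H : Finset (Finset V)}
    {X F' : Finset V} {p q B : ℕ} {δ h : ℝ} {η θ : ℕ → ℝ} {v : V} (hXn : X.Nonempty)
    (hXn' : (Xᶜ).Nonempty) (ha : Amb H X p q B δ) (hc : Cst (p + q + 2) B η θ h δ)
    (hG : GA H X p q η h F') (hF : F'.card ≤ B + (p + q + 2)) (h0 : ¬ Non H X p q η ∅)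
    (hv : v ∉ X) (hvF : v ∉ F') (hvN : ¬ Non H X p q η {v}) :
    dens (lets X (p + 1) (q + 1)) (fun f => Gen H X p q η F' ∅ f ∧
        v ∉ univ.image f ∧ insert v (Rx f) ∈ H) ≤
      dens (lets X (p + 1) (q + 1)) (fun f => Gen H X p q η F' ∅ f ∧
        v ∉ univ.image f ∧ insert v (Ry f) ∉ H) := by
  obtain ⟨s1, s2, s3, s4, s5⟩ := h07 V H X hXn hXn'
  have hc' : Cst (q + p + 2) B η θ h δ := by
    have : q + p + 2 = p + q + 2 := by omega
    rw [this]; exact hc
  have hG' : GA H Xᶜ q p η h F' := by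
    intro M hM hd
    rcases hG M ((s4 p q η M).mp hM) hd with ⟨g1, g2⟩ | ⟨g1, g2⟩
    · right
      refine ⟨by rw [compl_compl]; exact g1, ?_⟩
      rw [s1]; exact g2
    · left
      refine ⟨g1, ?_⟩
      rw [s1]; exact g2
  have e := h13 V H Xᶜ F' q p B δ h η θ v (s5 p q B δ ha) hc' hG'
    (by omega) (by rw [s3]; exact h0) (by rw [mem_compl]; exact hv) hvF
    (by rw [s3]; exact hvN)
  have hswap : Function.Injective
      (Sum.swap : Fin (q + 1) ⊕ Fin (p + 1) → Fin (p + 1) ⊕ Fin (q + 1)) := by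
    intro i j hij
    have := congrArg Sum.swap hij
    simpa using this
  have r1 := h02 V (Fin (p + 1) ⊕ Fin (q + 1)) (Fin (q + 1) ⊕ Fin (p + 1))
    (lets X (p + 1) (q + 1)) Sum.swap (lets_nonempty hXn hXn' _ _) hswap
    (fun f => Gen H Xᶜ q p η F' ∅ f ∧ v ∉ univ.image f ∧ insert v (Ry f) ∈ H)
  have r2 := h02 V (Fin (p + 1) ⊕ Fin (q + 1)) (Fin (q + 1) ⊕ Fin (p + 1))
    (lets X (p + 1) (q + 1)) Sum.swap (lets_nonempty hXn hXn' _ _) hswap
    (fun f => Gen H Xᶜ q p η F' ∅ f ∧ v ∉ univ.image f ∧ insert v (Rx f) ∉ H)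
  rw [lets_swap] at r1 r2
  rw [← r1, ← r2] at e
  simp only [Gen_swap s3, image_swap, Rx_swap, Ry_swap] at e
  exact e

end General

theorem e_sup (h01 : StmtE01) (h02 : StmtE02) (h07 : StmtE07) (h10 : StmtE10) (h12 : StmtE12)
    (h13 : StmtE13) (h14 : StmtE14) : StmtE15 := by
  intro V _ _ H X p q B δ h η θ ha hc hNF hD0
  classical
  have hnum := num1 hc (by omega)
  have hbig := ha.big
  have hdpos := ha.pos
  -- n > 0
  have hnpos : (0 : ℝ) < (Fintype.card V : ℝ) := by
    by_contra hcon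
    have h0 : (Fintype.card V : ℝ) = 0 :=
      le_antisymm (not_lt.mp hcon) (Nat.cast_nonneg _)
    rw [h0, mul_zero] at hbig
    have : (0 : ℝ) < 100 * ((p + q + 2 : ℕ) : ℝ) ^ 2 * ((B + p + q + 2 : ℕ) : ℝ) := by
      have e1 : (0 : ℝ) < ((p + q + 2 : ℕ) : ℝ) := by exact_mod_cast (by omega : 0 < p + q + 2)
      have e2 : (0 : ℝ) < ((B + p + q + 2 : ℕ) : ℝ) := by
        exact_mod_cast (by omega : 0 < B + p + q + 2)
      positivity
    linarith
  have hsm := ha.small
  have hXn : X.Nonempty := by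
    rw [← card_pos]
    have h1 := ha.lo
    have h2 : (0 : ℝ) < (X.card : ℝ) := by nlinarith
    exact_mod_cast h2
  have hXn' : (Xᶜ).Nonempty := by
    rw [← card_pos]
    have h1 := ha.lo'
    have h2 : (0 : ℝ) < ((Xᶜ).card : ℝ) := by nlinarith
    exact_mod_cast h2
  have h0 : ¬ Non H X p q η ∅ := by
    rintro ⟨-, -, h3⟩
    simp only [empty_inter, card_empty, Nat.sub_zero, empty_sdiff] at h3
    linarith
  have hMst : ∀ v, Non H X p q η {v} → Mst H X p q η {v} := by
    intro v hv
    refine ⟨hv, ?_⟩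
    intro M' hM'
    have : M' = ∅ := by
      rw [ssubset_singleton_iff] at hM'
      exact hM'
    rw [this]; exact h0
  -- single vertices are good
  have hgood : ∀ v, Non H X p q η {v} → GoodM H X p q η θ {v} := by
    intro v hv
    refine ⟨hMst v hv, ?_⟩
    by_cases hvX : v ∈ X
    · right; left
      refine ⟨singleton_nonempty v, by simpa using hvX, by simp, ?_⟩
      by_contra hcon
      have hf := flip_lemma h10 ha hc hv (singleton_nonempty v) (by simpa using hvX)
        (not_lt.mp hcon)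
      have hf2 := hf.2
      have h14' := hNF.1 v hvX
      rw [card_singleton] at hf2
      have e : p + 2 - 1 = p + 1 := by omega
      rw [e] at hf2
      linarith [hnum.1]
    · right; right
      have hvX' : ({v} : Finset V) ⊆ Xᶜ := by simpa using hvX
      refine ⟨singleton_nonempty v, hvX', by simp, ?_⟩
      by_contra hcon
      have hf := flip_lemma' h07 h10 hXn hXn' ha hc hv (singleton_nonempty v) hvX'
        (not_lt.mp hcon)
      have hf2 := hf.2
      have h14' := hNF.2 v hvX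
      rw [card_singleton] at hf2
      have e : q + 2 - 1 = q + 1 := by omega
      rw [e] at hf2
      linarith [hnum.1]
  set C : Finset V := univ.filter fun v => Non H X p q η {v} with hCdef
  have hCmem : ∀ v, v ∈ C ↔ Non H X p q η {v} := by
    intro v; simp [hCdef]
  by_cases hCcard : p + q + 2 ≤ C.card
  · left
    obtain ⟨Z, hZC, hZ⟩ := exists_subset_card_eq hCcard
    exact ⟨Z, hZ, fun z hz => hgood z ((hCmem z).mp (hZC hz))⟩
  · right
    intro F hF
    by_contra hcon
    push Not at hcon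
    set F' : Finset V := F ∪ C with hF'def
    have hF'card : F'.card ≤ B + (p + q + 2) := by
      have := card_union_le F C
      rw [← hF'def] at this
      omega
    -- (GA)
    have hGA : GA H X p q η h F' := by
      intro M hM hd
      have hdF : Disjoint M F := by
        rw [hF'def, disjoint_union_right] at hd
        exact hd.1
      have hng : ¬ GoodM H X p q η θ M := fun hg => hcon M hg hdF
      have hMne : M.Nonempty := by
        rw [nonempty_iff_ne_empty]
        rintro rfl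
        exact h0 hM.1
      have hng' := fun hh => hng ⟨hM, hh⟩
      by_cases hb1 : (M ∩ X).Nonempty
      · have hb2 : ¬ (M \ X).Nonempty := fun hb2 => hng' (Or.inl ⟨hb1, hb2⟩)
        have hMX : M ⊆ X := by
          rw [not_nonempty_iff_eq_empty, sdiff_eq_empty_iff_subset] at hb2
          exact hb2
        left
        refine ⟨hMX, ?_⟩
        have hle : M.card ≤ p + 1 := by
          have := hM.1.1
          rwa [card_inter_of_subset hMX] at this
        have hmix : Mix H X M (p + 1 - M.card) q ≤ θ M.card := by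
          by_contra hlt
          exact hng' (Or.inr (Or.inl ⟨hMne, hMX, hle, not_le.mp hlt⟩))
        exact (flip_lemma h10 ha hc hM.1 hMne hMX hmix).2
      · have hMX : M ⊆ Xᶜ := by
          intro v hv
          rw [mem_compl]
          intro hvX
          exact hb1 ⟨v, mem_inter.mpr ⟨hv, hvX⟩⟩
        right
        refine ⟨hMX, ?_⟩
        have hle : M.card ≤ q + 1 := by
          have := hM.1.2.1
          have e : M \ X = M := by
            rw [Finset.sdiff_eq_self_iff_disjoint, disjoint_left]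
            intro v hv
            exact mem_compl.mp (hMX hv)
          rwa [e] at this
        have hmix : Mix H X M p (q + 1 - M.card) ≤ θ M.card := by
          by_contra hlt
          exact hng' (Or.inr (Or.inr ⟨hMne, hMX, hle, not_le.mp hlt⟩))
        exact (flip_lemma' h07 h10 hXn hXn' ha hc hM.1 hMne hMX hmix).2
    -- densities
    obtain ⟨d1, d2, d3, d4, d5, d6⟩ := h01 V (Fin (p + 1) ⊕ Fin (q + 1))
      (lets X (p + 1) (q + 1)) (lets_nonempty hXn hXn' _ _)
    set G : (Fin (p + 1) ⊕ Fin (q + 1) → V) → Prop := fun f => Gen H X p q η F' ∅ f with hG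
    have hη1 : 0 < η 1 := hc.pos 1 (by omega)
    -- P(gen) ≥ 1/2
    have hPgen : 1 / 2 ≤ dens (lets X (p + 1) (q + 1)) G := by
      have hρ0 : (0 : ℝ) ≤ 1 / (8 * ((p + q + 2 : ℕ) : ℝ) * 4 ^ (p + q + 2) * ((B : ℝ) + 1)) := by
        positivity
      have e12 := h12 V (Fin (p + 1) ⊕ Fin (q + 1)) H X ∅ F' p q B δ
        (1 / (8 * ((p + q + 2 : ℕ) : ℝ) * 4 ^ (p + q + 2) * ((B : ℝ) + 1))) η
        (Sum.elim (fun _ => true) (fun _ => false)) ha hc.pos hρ0 ?_ ?_ (by omega) ?_
      · have hbox : (fun i => sd X ((Sum.elim (fun _ => true) (fun _ => false) :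
            Fin (p + 1) ⊕ Fin (q + 1) → Bool) i)) = lets X (p + 1) (q + 1) := by
          funext i
          rcases i with i | i <;> simp [sd, lets]
        rw [hbox] at e12
        have e4 := d4 G
        have hn := hnum.2.2.1
        linarith
      · intro i i' hii' hi'
        have e := eta_mono hc (by omega) hii' hi'
        have hP : 0 < 8 * ((p + q + 2 : ℕ) : ℝ) * 4 ^ (p + q + 2) * ((B : ℝ) + 1) := by
          have e1 : (0 : ℝ) < ((p + q + 2 : ℕ) : ℝ) := by
            exact_mod_cast (by omega : 0 < p + q + 2)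
          positivity
        rw [one_div, ← div_eq_inv_mul, le_div_iff₀ hP]
        linarith
      · simp only [card_empty, Fintype.card_sum, Fintype.card_fin]
        omega
      · intro A' hA'
        rw [subset_empty.mp hA']
        exact h0
    have e14 := h14 V H X F' p q η ha.uni ha.dirac hXn hXn'
      (by have := hc.half (p + q + 2) le_rfl; linarith)
    -- the terms
    set t : V → ℝ := fun v =>
      (dens (lets X (p + 1) (q + 1)) (fun f => Gen H X p q η F' ∅ f ∧
            v ∉ Finset.univ.image f ∧ insert v (Rx f) ∈ H) +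
          dens (lets X (p + 1) (q + 1)) (fun f => Gen H X p q η F' ∅ f ∧
            v ∉ Finset.univ.image f ∧ insert v (Ry f) ∈ H) -
          dens (lets X (p + 1) (q + 1)) (fun f => Gen H X p q η F' ∅ f ∧
            v ∉ Finset.univ.image f)) with ht
    have splitx : ∀ v, dens (lets X (p + 1) (q + 1)) (fun f => Gen H X p q η F' ∅ f ∧
            v ∉ Finset.univ.image f ∧ insert v (Rx f) ∈ H) +
          dens (lets X (p + 1) (q + 1)) (fun f => Gen H X p q η F' ∅ f ∧
            v ∉ Finset.univ.image f ∧ insert v (Rx f) ∉ H) =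
          dens (lets X (p + 1) (q + 1)) (fun f => Gen H X p q η F' ∅ f ∧
            v ∉ Finset.univ.image f) := by
      intro v
      have e := dens_split (lets X (p + 1) (q + 1))
        (fun f => Gen H X p q η F' ∅ f ∧ v ∉ Finset.univ.image f)
        (fun f => insert v (Rx f) ∈ H)
      simp only [and_assoc] at e
      exact e
    have splity : ∀ v, dens (lets X (p + 1) (q + 1)) (fun f => Gen H X p q η F' ∅ f ∧
            v ∉ Finset.univ.image f ∧ insert v (Ry f) ∈ H) +
          dens (lets X (p + 1) (q + 1)) (fun f => Gen H X p q η F' ∅ f ∧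
            v ∉ Finset.univ.image f ∧ insert v (Ry f) ∉ H) =
          dens (lets X (p + 1) (q + 1)) (fun f => Gen H X p q η F' ∅ f ∧
            v ∉ Finset.univ.image f) := by
      intro v
      have e := dens_split (lets X (p + 1) (q + 1))
        (fun f => Gen H X p q η F' ∅ f ∧ v ∉ Finset.univ.image f)
        (fun f => insert v (Ry f) ∈ H)
      simp only [and_assoc] at e
      exact e
    have tC : ∀ v, t v ≤ dens (lets X (p + 1) (q + 1)) G := by
      intro v
      have e1 := splity v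
      have e2 : dens (lets X (p + 1) (q + 1)) (fun f => Gen H X p q η F' ∅ f ∧
            v ∉ Finset.univ.image f ∧ insert v (Rx f) ∈ H) ≤
          dens (lets X (p + 1) (q + 1)) G := d2 _ _ (fun f _ hf => hf.1)
      have e3 := (d1 (fun f => Gen H X p q η F' ∅ f ∧
            v ∉ Finset.univ.image f ∧ insert v (Ry f) ∉ H)).1
      simp only [ht]
      linarith
    have tF : ∀ v, v ∉ C → t v ≤ η 1 := by
      intro v hv
      have hvN : ¬ Non H X p q η {v} := fun hh => hv ((hCmem v).mpr hh)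
      by_cases hvX : v ∈ X
      · have e0 : D H X {v} p (q + 1) ≤ η 1 := by
          by_contra hlt
          apply hvN
          have hsub : ({v} : Finset V) ⊆ X := by simpa using hvX
          refine ⟨?_, ?_, ?_⟩
          · rw [card_inter_of_subset hsub, card_singleton]; omega
          · rw [card_sdiff_of_subset' hsub]; omega
          · rw [card_inter_of_subset hsub, card_sdiff_of_subset' hsub, card_singleton]
            simpa using not_le.mp hlt
        have e1 := splitx v
        have e2 : dens (lets X (p + 1) (q + 1)) (fun f => Gen H X p q η F' ∅ f ∧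
            v ∉ Finset.univ.image f ∧ insert v (Ry f) ∈ H) ≤
          dens (lets X (p + 1) (q + 1)) (fun f => insert v (Ry f) ∈ H) :=
            d2 _ _ (fun f _ hf => hf.2.2)
        rw [dens_Ry h02 hXn hXn'] at e2
        have e3 := (d1 (fun f => Gen H X p q η F' ∅ f ∧
            v ∉ Finset.univ.image f ∧ insert v (Rx f) ∉ H)).1
        simp only [ht]
        linarith
      · have e0 : D H X {v} (p + 1) q ≤ η 1 := by
          by_contra hlt
          apply hvN
          have hi : ({v} : Finset V) ∩ X = ∅ := by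
            rw [singleton_inter_of_notMem hvX]
          have hs : ({v} : Finset V) \ X = {v} := by
            rw [Finset.sdiff_eq_self_iff_disjoint, disjoint_singleton_left]
            exact hvX
          refine ⟨?_, ?_, ?_⟩
          · rw [hi, card_empty]; omega
          · rw [hs, card_singleton]; omega
          · rw [hi, hs, card_singleton, card_empty]
            simpa using not_le.mp hlt
        have e1 := splity v
        have e2 : dens (lets X (p + 1) (q + 1)) (fun f => Gen H X p q η F' ∅ f ∧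
            v ∉ Finset.univ.image f ∧ insert v (Rx f) ∈ H) ≤
          dens (lets X (p + 1) (q + 1)) (fun f => insert v (Rx f) ∈ H) :=
            d2 _ _ (fun f _ hf => hf.2.2)
        rw [dens_Rx h02 hXn hXn'] at e2
        have e3 := (d1 (fun f => Gen H X p q η F' ∅ f ∧
            v ∉ Finset.univ.image f ∧ insert v (Ry f) ∉ H)).1
        simp only [ht]
        linarith
    have tN : ∀ v, v ∉ F' → t v ≤ 0 := by
      intro v hv
      have hvC : v ∉ C := fun hh => hv (mem_union_right _ hh)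
      have hvN : ¬ Non H X p q η {v} := fun hh => hvC ((hCmem v).mpr hh)
      by_cases hvX : v ∈ X
      · have e13 := h13 V H X F' p q B δ h η θ v ha hc hGA hF'card h0 hvX hv hvN
        have e1 := splitx v
        simp only [ht]
        linarith
      · have e13 := vertex' h02 h07 h13 hXn hXn' ha hc hGA hF'card h0 hvX hv hvN
        have e1 := splity v
        simp only [ht]
        linarith
    -- the sum
    have hbound : ∀ v, t v ≤ (if v ∈ C then dens (lets X (p + 1) (q + 1)) G else 0) +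
        (if v ∈ F then η 1 else 0) := by
      intro v
      by_cases hvC : v ∈ C
      · have := tC v
        rw [if_pos hvC]
        split_ifs <;> linarith
      · rw [if_neg hvC]
        by_cases hvF : v ∈ F
        · rw [if_pos hvF]
          have := tF v hvC
          linarith
        · rw [if_neg hvF]
          have := tN v (by
            rw [hF'def, mem_union]
            rintro (hh | hh)
            · exact hvF hh
            · exact hvC hh)
          linarith
    have hsum : ∑ v, t v ≤ (C.card : ℝ) * dens (lets X (p + 1) (q + 1)) G +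
        (F.card : ℝ) * η 1 := by
      calc ∑ v, t v ≤ ∑ v, ((if v ∈ C then dens (lets X (p + 1) (q + 1)) G else 0) +
            (if v ∈ F then η 1 else 0)) := sum_le_sum (fun v _ => hbound v)
        _ = _ := by
          rw [sum_add_distrib, sum_ite_mem, sum_ite_mem, univ_inter, univ_inter, sum_const,
            sum_const, nsmul_eq_mul, nsmul_eq_mul]
    have hCle : (C.card : ℝ) ≤ ((p + q + 2 : ℕ) : ℝ) - 1 := by
      have : C.card + 1 ≤ p + q + 2 := by omega
      have h' : ((C.card + 1 : ℕ) : ℝ) ≤ ((p + q + 2 : ℕ) : ℝ) := by exact_mod_cast this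
      push_cast at h' ⊢
      linarith
    have hFle : (F.card : ℝ) ≤ (B : ℝ) := by exact_mod_cast hF
    have hPnn := (d1 G).1
    have f1 : (C.card : ℝ) * dens (lets X (p + 1) (q + 1)) G ≤
        (((p + q + 2 : ℕ) : ℝ) - 1) * dens (lets X (p + 1) (q + 1)) G :=
      mul_le_mul_of_nonneg_right hCle hPnn
    have f2 : (F.card : ℝ) * η 1 ≤ (B : ℝ) * η 1 := mul_le_mul_of_nonneg_right hFle hη1.le
    have f3 := hnum.2.2.2
    have f4 : ((p + q + 2 : ℕ) : ℝ) * dens (lets X (p + 1) (q + 1)) G ≤ ∑ v, t v := e14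
    linarith

end Pool.Agent.KK.E.H64
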